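import Mathlib

/-!
MP_c9c10f_co, the finite part: a 2-colouring of the grid 7 x 5 without a monochromatic rectangle
`a x b`, `min a b ∈ {1,2}`, `max a b ≤ 4`, gives the same colour to the two ends of the middle row.
The columns are numbers below 32.
-/

set_option autoImplicit false

namespace Pool.Agent.Helper28.MR

/-- not all equal -/
def nae (p q r s : Bool) : Bool := !((p == q) && (p == r) && (p == s))

/-- a column of five cells -/
def enc (a0 a1 a2 a3 a4 : Bool) : ℕ :=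
  a0.toNat + 2 * a1.toNat + 4 * a2.toNat + 8 * a3.toNat + 16 * a4.toNat

/-- at most one bit -/
def one (m : ℕ) : Bool := (m &&& (m - 1)) == 0

/-- no two bits at distance 1 or 2 -/
def far (m : ℕ) : Bool := ((m &&& (m >>> 1)) == 0) && ((m &&& (m >>> 2)) == 0)

/-- columns at distance 1 or 2 -/
def P12 (a b : ℕ) : Bool := one (a &&& b) && one ((31 ^^^ a) &&& (31 ^^^ b))

/-- columns at distance 3 or 4 -/
def P34 (a b : ℕ) : Bool := far (a &&& b) && far ((31 ^^^ a) &&& (31 ^^^ b))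

/-- the middle cell -/
def mid (a : ℕ) : ℕ := (a >>> 2) &&& 1

def chk : Bool :=
  (List.range 32).all fun c0 =>
  (List.range 32).all fun c1 => !P12 c0 c1 ||
  (List.range 32).all fun c2 => !(P12 c1 c2 && P12 c0 c2) ||
  (List.range 32).all fun c3 => !(P12 c2 c3 && P12 c1 c3 && P34 c0 c3) ||
  (List.range 32).all fun c4 => !(P12 c3 c4 && P12 c2 c4 && P34 c1 c4 && P34 c0 c4) ||
  (List.range 32).all fun c5 => !(P12 c4 c5 && P12 c3 c5 && P34 c2 c5 && P34 c1 c5) ||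
  (List.range 32).all fun c6 => !(P12 c5 c6 && P12 c4 c6 && P34 c3 c6 && P34 c2 c6) ||
    (mid c0 == mid c6)

theorem chk_true : chk = true := by decide +kernel

theorem L12 : ∀ a0 a1 a2 a3 a4 b0 b1 b2 b3 b4 : Bool,
    (nae a0 b0 a1 b1 && nae a0 b0 a2 b2 && nae a0 b0 a3 b3 && nae a0 b0 a4 b4 &&
      nae a1 b1 a2 b2 && nae a1 b1 a3 b3 && nae a1 b1 a4 b4 &&
      nae a2 b2 a3 b3 && nae a2 b2 a4 b4 && nae a3 b3 a4 b4) = true →
    P12 (enc a0 a1 a2 a3 a4) (enc b0 b1 b2 b3 b4) = true := by decide +kernel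

theorem L34 : ∀ a0 a1 a2 a3 a4 b0 b1 b2 b3 b4 : Bool,
    (nae a0 b0 a1 b1 && nae a0 b0 a2 b2 && nae a1 b1 a2 b2 && nae a1 b1 a3 b3 &&
      nae a2 b2 a3 b3 && nae a2 b2 a4 b4 && nae a3 b3 a4 b4) = true →
    P34 (enc a0 a1 a2 a3 a4) (enc b0 b1 b2 b3 b4) = true := by decide +kernel

theorem mid_enc : ∀ a0 a1 a2 a3 a4 b0 b1 b2 b3 b4 : Bool,
    (mid (enc a0 a1 a2 a3 a4) == mid (enc b0 b1 b2 b3 b4)) = true → a2 = b2 := by decide +kernel

theorem enc_lt : ∀ a0 a1 a2 a3 a4 : Bool, enc a0 a1 a2 a3 a4 < 32 := by decide +kernel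

/-- the check in words -/
theorem chk_spec {c0 c1 c2 c3 c4 c5 c6 : ℕ} (h0 : c0 < 32) (h1 : c1 < 32) (h2 : c2 < 32)
    (h3 : c3 < 32) (h4 : c4 < 32) (h5 : c5 < 32) (h6 : c6 < 32)
    (p01 : P12 c0 c1 = true) (p12 : P12 c1 c2 = true) (p23 : P12 c2 c3 = true)
    (p34 : P12 c3 c4 = true) (p45 : P12 c4 c5 = true) (p56 : P12 c5 c6 = true)
    (p02 : P12 c0 c2 = true) (p13 : P12 c1 c3 = true) (p24 : P12 c2 c4 = true)
    (p35 : P12 c3 c5 = true) (p46 : P12 c4 c6 = true)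
    (q03 : P34 c0 c3 = true) (q14 : P34 c1 c4 = true) (q25 : P34 c2 c5 = true)
    (q36 : P34 c3 c6 = true) (q04 : P34 c0 c4 = true) (q15 : P34 c1 c5 = true)
    (q26 : P34 c2 c6 = true) : (mid c0 == mid c6) = true := by
  have h := chk_true
  simp only [chk, List.all_eq_true, List.mem_range] at h
  have e0 := h c0 h0 c1 h1
  rw [p01] at e0
  simp only [Bool.not_true, Bool.false_or, List.all_eq_true, List.mem_range] at e0
  have e1 := e0 c2 h2
  rw [p12, p02] at e1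
  simp only [Bool.and_self, Bool.not_true, Bool.false_or, List.all_eq_true, List.mem_range] at e1
  have e2 := e1 c3 h3
  rw [p23, p13, q03] at e2
  simp only [Bool.and_self, Bool.not_true, Bool.false_or, List.all_eq_true, List.mem_range] at e2
  have e3 := e2 c4 h4
  rw [p34, p24, q14, q04] at e3
  simp only [Bool.and_self, Bool.not_true, Bool.false_or, List.all_eq_true, List.mem_range] at e3
  have e4 := e3 c5 h5
  rw [p45, p35, q25, q15] at e4
  simp only [Bool.and_self, Bool.not_true, Bool.false_or, List.all_eq_true, List.mem_range] at e4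
  have e5 := e4 c6 h6
  rw [p56, p46, q36, q26] at e5
  simpa only [Bool.and_self, Bool.not_true, Bool.false_or] using e5

/-- the statement on functions on `ℤ × ℤ` -/
theorem grid (g : ℤ → ℤ → Bool)
    (hg : ∀ x y : ℤ, ∀ a b : ℤ, ((a = 1 ∨ a = 2) ∧ 1 ≤ b ∧ b ≤ 4 ∨ (b = 1 ∨ b = 2) ∧ 1 ≤ a ∧ a ≤ 4) →
      nae (g x y) (g (x + a) y) (g x (y + b)) (g (x + a) (y + b)) = true) :
    g 0 0 = g 6 0 := by
  obtain ⟨col, hcol⟩ : ∃ col : ℤ → ℕ, ∀ x, col x =
      enc (g x (-2)) (g x (-1)) (g x 0) (g x 1) (g x 2) := ⟨_, fun _ => rfl⟩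
  have hlt : ∀ x, col x < 32 := fun x => by rw [hcol]; exact enc_lt _ _ _ _ _
  have k : ∀ (x a : ℤ) (y b : ℤ),
      ((a = 1 ∨ a = 2) ∧ 1 ≤ b ∧ b ≤ 4 ∨ (b = 1 ∨ b = 2) ∧ 1 ≤ a ∧ a ≤ 4) →
      nae (g x y) (g (x + a) y) (g x (y + b)) (g (x + a) (y + b)) = true := fun x a y b h => hg x y a b h
  have A12 : ∀ (x a : ℤ), (a = 1 ∨ a = 2) → P12 (col x) (col (x + a)) = true := by
    intro x a ha
    rw [hcol, hcol]
    apply L12
    have f : ∀ (y y' : ℤ), 1 ≤ y' - y → y' - y ≤ 4 →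
        nae (g x y) (g (x + a) y) (g x y') (g (x + a) y') = true := by
      intro y y' h1 h2
      have := k x a y (y' - y) (Or.inl ⟨ha, h1, h2⟩)
      rwa [add_sub_cancel] at this
    rw [f (-2) (-1) (by norm_num) (by norm_num), f (-2) 0 (by norm_num) (by norm_num),
      f (-2) 1 (by norm_num) (by norm_num), f (-2) 2 (by norm_num) (by norm_num),
      f (-1) 0 (by norm_num) (by norm_num), f (-1) 1 (by norm_num) (by norm_num),
      f (-1) 2 (by norm_num) (by norm_num), f 0 1 (by norm_num) (by norm_num),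
      f 0 2 (by norm_num) (by norm_num), f 1 2 (by norm_num) (by norm_num)]
    rfl
  have A34 : ∀ (x a : ℤ), (a = 3 ∨ a = 4) → P34 (col x) (col (x + a)) = true := by
    intro x a ha
    rw [hcol, hcol]
    apply L34
    have f : ∀ (y y' : ℤ), (y' - y = 1 ∨ y' - y = 2) →
        nae (g x y) (g (x + a) y) (g x y') (g (x + a) y') = true := by
      intro y y' h1
      have := k x a y (y' - y) (Or.inr ⟨h1, by omega, by omega⟩)
      rwa [add_sub_cancel] at this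
    rw [f (-2) (-1) (by norm_num), f (-2) 0 (by norm_num),
      f (-1) 0 (by norm_num), f (-1) 1 (by norm_num), f 0 1 (by norm_num),
      f 0 2 (by norm_num), f 1 2 (by norm_num)]
    rfl
  have r : (mid (col 0) == mid (col 6)) = true :=
    chk_spec (hlt 0) (hlt 1) (hlt 2) (hlt 3) (hlt 4) (hlt 5) (hlt 6)
      (A12 0 1 (Or.inl rfl)) (A12 1 1 (Or.inl rfl)) (A12 2 1 (Or.inl rfl)) (A12 3 1 (Or.inl rfl))
      (A12 4 1 (Or.inl rfl)) (A12 5 1 (Or.inl rfl)) (A12 0 2 (Or.inr rfl)) (A12 1 2 (Or.inr rfl))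
      (A12 2 2 (Or.inr rfl)) (A12 3 2 (Or.inr rfl)) (A12 4 2 (Or.inr rfl))
      (A34 0 3 (Or.inl rfl)) (A34 1 3 (Or.inl rfl)) (A34 2 3 (Or.inl rfl)) (A34 3 3 (Or.inl rfl))
      (A34 0 4 (Or.inr rfl)) (A34 1 4 (Or.inr rfl)) (A34 2 4 (Or.inr rfl))
  rw [hcol, hcol] at r
  exact mid_enc _ _ _ _ _ _ _ _ _ _ r

end Pool.Agent.Helper28.MR
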