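import Pool.Agent.Helper38.MR.Spec

set_option autoImplicit false

/-! Module I: the instances for the lower bound on monotone real circuits. -/

namespace Pool.Agent.Helper28.MR

open Pool.Agent.Helper38.MR Pool.Agent.Helper38.ELP Pool.Agent.Helper68.LP Pool.Agent.Helper68.ELP

theorem I_y_le {N x y : ℕ} (hN : N % 2 = 0) (h : pres N x y = true) :
    y ≤ 10 * (N + 1) + 2 := by
  by_contra hc
  push Not at hc
  obtain ⟨hx, hy⟩ := pres_lt h
  have hJ : y / 10 = N + 1 := by omega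
  have hI : x / 10 ≤ N + 1 := by omega
  have hm : 3 ≤ y % 10 := by omega
  have hty : ty N (x / 10) (y / 10) = Ty.RB ∨ ty N (x / 10) (y / 10) = Ty.LB := by
    rw [hJ]
    unfold ty
    rw [if_neg (by omega)]
    by_cases h0 : x / 10 = 0
    · rw [if_pos h0, if_neg (by omega)]
      exact Or.inl rfl
    · rw [if_neg h0, if_pos rfl]
      by_cases h1 : x / 10 % 2 = 0
      · rw [if_pos h1]; exact Or.inl rfl
      · rw [if_neg h1]; exact Or.inr rfl
  have hb : ∀ a : ℕ, a < 2 ^ 30 → a.testBit (10 * (y % 10) + x % 10) = false := by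
    intro a ha
    exact Nat.testBit_lt_two_pow (ha.trans_le (Nat.pow_le_pow_right (by norm_num) (by omega)))
  unfold pres rd at h
  rcases hty with hty | hty
  · rw [hty] at h
    rw [hb (presM Ty.RB) (by norm_num [presM])] at h
    exact absurd h (by simp)
  · rw [hty] at h
    rw [hb (presM Ty.LB) (by norm_num [presM])] at h
    exact absurd h (by simp)

theorem I_pres_11 (N : ℕ) : pres N 1 1 = true := by
  unfold pres rd
  have : ty N (1 / 10) (1 / 10) = Ty.RT := by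
    unfold ty
    rw [if_neg (by omega)]
    rfl
  rw [this]
  decide +kernel

theorem I_pres_21 (N : ℕ) : pres N 2 1 = true := by
  unfold pres rd
  have : ty N (2 / 10) (1 / 10) = Ty.RT := by
    unfold ty
    rw [if_neg (by omega)]
    rfl
  rw [this]
  decide +kernel

theorem I_card_ge (N : ℕ) : 2 ≤ (Vset N).card := by
  have h1 : ((1, 1) : ℕ × ℕ) ∈ Vset N := mem_Vset.mpr (I_pres_11 N)
  have h2 : ((2, 1) : ℕ × ℕ) ∈ Vset N := mem_Vset.mpr (I_pres_21 N)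
  exact Finset.one_lt_card.mpr ⟨_, h1, _, h2, by simp⟩

theorem I_card_le (N : ℕ) : (Vset N).card ≤ (10 * (N + 2)) ^ 2 := by
  unfold Vset
  refine (Finset.card_filter_le _ _).trans ?_
  rw [Finset.card_product, Finset.card_range, sq]

theorem I_tK_inj {M c c' : ℕ} (h : tK M c = tK M c') : c = c' := by
  unfold tK at h
  have := congrArg Prod.fst h
  simp only at this
  omega

theorem I_addTop_abs {M : ℕ} (v : ℕ → ℕ → ℤ) (top : Fin M → ℤ)
    (ht : ∀ c, 0 ≤ top c ∧ top c ≤ 1) (C : ℕ) (hv : ∀ x y, |v x y| ≤ (C : ℤ)) (x y : ℕ) :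
    |addTop v top x y| ≤ ((C + 1 : ℕ) : ℤ) := by
  unfold addTop
  have h0 : 0 ≤ ∑ c : Fin M, (if (x, y) = tK M c then top c else 0) := by
    apply Finset.sum_nonneg
    intro c _
    split_ifs
    · exact (ht c).1
    · exact le_rfl
  have h1 : ∑ c : Fin M, (if (x, y) = tK M c then top c else 0) ≤ 1 := by
    calc ∑ c : Fin M, (if (x, y) = tK M c then top c else 0)
        ≤ ∑ c : Fin M, (if (x, y) = tK M c then (1 : ℤ) else 0) := by
          apply Finset.sum_le_sum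
          intro c _
          split_ifs
          · exact (ht c).2
          · exact le_rfl
      _ = ((Finset.univ.filter fun c : Fin M => (x, y) = tK M c).card : ℤ) := by
          rw [Finset.card_filter]
          push_cast
          rfl
      _ ≤ 1 := by
          have : (Finset.univ.filter fun c : Fin M => (x, y) = tK M c).card ≤ 1 := by
            rw [Finset.card_le_one]
            intro a ha b hb
            rw [Finset.mem_filter] at ha hb
            exact Fin.ext (I_tK_inj (ha.2.symm.trans hb.2))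
          exact_mod_cast this
  have h2 := abs_le.mp (hv x y)
  rw [abs_le]
  push_cast
  constructor <;> linarith [h2.1, h2.2]

theorem I_topOf {m : ℕ} (ε : Fin m ⊕ Edge m ≃ Fin (nb m)) (x : Graph m) (c : Fin (nb m)) :
    0 ≤ topOf ε x c ∧ topOf ε x c ≤ 1 := by
  unfold topOf
  cases ε.symm c with
  | inl a => simp
  | inr e =>
    simp only
    split_ifs <;> simp

theorem I_ucost_abs {h v : ℕ → ℕ → ℤ} {N C : ℕ} (hB : Box h v N C) (K : ℤ) {p q : ℕ × ℕ}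
    (hn : Nb p q) : |ucost h v K p q| ≤ C := by
  unfold Nb at hn
  unfold ucost
  split_ifs with h1 h2 h3 h4
  · exact hB.hh _ _
  · exact hB.hh _ _
  · exact hB.hv _ _
  · exact hB.hv _ _
  · omega

theorem I_tcost_abs {h v : ℕ → ℕ → ℤ} {N C : ℕ} (hB : Box h v N C) (K : ℤ) {n : ℕ}
    (p : Fin n → ℕ × ℕ) (σ : Equiv.Perm (Fin n)) (hσ : UnitTour p σ) :
    |tcost h v K p σ| ≤ n * C := by
  unfold tcost
  refine (Finset.abs_sum_le_sum_abs _ _).trans ?_
  refine (Finset.sum_le_sum fun i _ => I_ucost_abs hB K (hσ i)).trans ?_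
  rw [Finset.sum_const, Finset.card_univ, Fintype.card_fin, nsmul_eq_mul]

theorem I_pert_bd {h v : ℕ → ℕ → ℤ} {N C : ℕ} (hB : Box h v N C) {M : ℕ} (hM : C ≤ M)
    {p : ℕ × ℕ} (hp : p.1 ≤ N ∧ p.2 ≤ N) :
    0 ≤ (pert h v M p).1 ∧ (pert h v M p).1 ≤ N * (M + C) ∧
      0 ≤ (pert h v M p).2 ∧ (pert h v M p).2 ≤ N * (M + C) := by
  have key : ∀ (f : ℕ → ℤ) (x : ℕ), (∀ i, |f i| ≤ (C : ℤ)) → x ≤ N →
      0 ≤ (M : ℤ) * x + ∑ i ∈ Finset.range x, f i ∧
      (M : ℤ) * x + ∑ i ∈ Finset.range x, f i ≤ N * (M + C) := by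
    intro f x hf hx
    have h1 := abs_le.mp (sum_bound (N := x) hf le_rfl)
    push_cast at h1
    have h2 : (x : ℤ) * C ≤ x * M := by
      have : (C : ℤ) ≤ M := by exact_mod_cast hM
      exact mul_le_mul_of_nonneg_left this (by positivity)
    have h3 : (x : ℤ) * (M + C) ≤ N * (M + C) := by
      have : (x : ℤ) ≤ N := by exact_mod_cast hx
      exact mul_le_mul_of_nonneg_right this (by positivity)
    constructor
    · nlinarith [h1.1]
    · nlinarith [h1.2]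
  have k1 := key (fun i => h i p.2) p.1 (fun i => hB.hh i p.2) hp.1
  have k2 := key (fun j => v p.1 j) p.2 (fun j => hB.hv p.1 j) hp.2
  exact ⟨k1.1, k1.2, k2.1, k2.2⟩

theorem I_placement {n : ℕ} (S t : ℕ) (i0 : Fin n) (P : Fin n → ℤ × ℤ) (Y R : ℕ)
    (hinj : Function.Injective P) (hS : t < S)
    (hP : ∀ i, 0 ≤ (P i).1 ∧ (P i).1 ≤ Y ∧ 0 ≤ (P i).2 ∧ (P i).2 ≤ Y)
    (hR : S * Y + t ≤ R) : Placement R (padded S t i0 P) := by
  refine ⟨padded_injective hS i0 hinj, ?_⟩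
  have hR' : (S : ℤ) * Y + t ≤ R := by exact_mod_cast hR
  have hsc : ∀ i, 0 ≤ (sc S (P i)).1 ∧ (sc S (P i)).1 ≤ S * Y ∧ 0 ≤ (sc S (P i)).2 ∧
      (sc S (P i)).2 ≤ S * Y := by
    intro i
    obtain ⟨h1, h2, h3, h4⟩ := hP i
    have hS0 : (0 : ℤ) ≤ S := by positivity
    exact ⟨mul_nonneg hS0 h1, mul_le_mul_of_nonneg_left h2 hS0, mul_nonneg hS0 h3,
      mul_le_mul_of_nonneg_left h4 hS0⟩
  intro i
  unfold padded
  refine Fin.addCases (fun i => ?_) (fun j => ?_) i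
  · simp only [Fin.append_left]
    obtain ⟨h1, h2, h3, h4⟩ := hsc i
    refine ⟨h1, ?_, h3, ?_⟩ <;> linarith
  · simp only [Fin.append_right]
    obtain ⟨h1, h2, h3, h4⟩ := hsc i0
    have hj : ((j : ℕ) : ℤ) + 1 ≤ t := by exact_mod_cast j.2
    unfold near
    simp only
    refine ⟨by positivity, ?_, h3, ?_⟩ <;> linarith

/-! ### Numbers -/

theorem I_mono {s a b i j : ℕ} (hs : 1 ≤ s) (h : a ≤ b) (hij : i ≤ j) : a * s ^ i ≤ b * s ^ j :=
  Nat.mul_le_mul h (Nat.pow_le_pow_right hs hij)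

theorem I_nb_le (m : ℕ) (hm : 2 ≤ m) : nb m + 1 ≤ (m + 1) ^ 2 := by
  unfold nb
  have h1 : m * (m - 1) / 2 ≤ m * (m - 1) := Nat.div_le_self _ _
  obtain ⟨k, rfl⟩ : ∃ k, m = k + 1 := ⟨m - 1, by omega⟩
  simp only [Nat.add_sub_cancel] at *
  nlinarith

/-- the numbers of the construction -/
structure Nums (m t n N C K M L R : ℕ) : Prop where
  hC0 : 1 ≤ C
  hN : N = 10 * (2 * nb m + 4)
  hn : n ≤ N ^ 2
  hC : C = 10 * (4 * m + 1) * (nb m + 1) ^ 2
  hK : K = 10 ^ 5 * (4 * m + 1) * (nb m + 1) ^ 4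
  hM : M = 10 ^ 12 * (m + t + 1) ^ 18
  hL : L = 100 * (2 * n * M + t + 1)
  hR : 10 ^ 60 * (m + t + 1) ^ 60 ≤ R

theorem I_nums {m t n N C K M L R : ℕ} (hm : 2 ≤ m) (h : Nums m t n N C K M L R) :
    1000 * (N + 1) * (C + 1) ≤ M ∧ 3 * K + 8 * (N * (C + 1)) ≤ M ∧
    8 * n * (N * (C + 1)) ^ 2 + (C + 1) ≤ M ∧ 1000 * (L + 1) * (N + 1) * (C + 1) ≤ M ^ 2 ∧
    8 * n * M ≤ R ∧ (L + 1) * (N * (M + (C + 1))) + t ≤ R ∧ t < L ∧ m + C + 2 ≤ M := by
  obtain ⟨hC0, hN, hn, hC, hK, hM, hL, hR⟩ := h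
  obtain ⟨s, hs⟩ : ∃ s, s = m + t + 1 := ⟨_, rfl⟩
  rw [← hs] at hM hR
  have hs1 : 1 ≤ s := by omega
  have hms : 4 * m + 1 ≤ 4 * s := by omega
  have hnb : nb m + 1 ≤ s ^ 2 :=
    (I_nb_le m hm).trans (Nat.pow_le_pow_left (by omega) 2)
  have hs2 : 1 ≤ s ^ 2 := Nat.one_le_pow _ _ hs1
  have bN : N + 1 ≤ 41 * s ^ 2 := by omega
  have bn : n ≤ 1600 * s ^ 4 := by
    refine hn.trans ?_
    calc N ^ 2 ≤ (40 * s ^ 2) ^ 2 := Nat.pow_le_pow_left (by omega) 2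
      _ = 1600 * s ^ 4 := by ring
  have bC : C + 1 ≤ 41 * s ^ 5 := by
    have h1 : C ≤ 10 * (4 * s) * (s ^ 2) ^ 2 := by
      rw [hC]; gcongr
    have h2 : 10 * (4 * s) * (s ^ 2) ^ 2 = 40 * s ^ 5 := by ring
    have h3 : 1 ≤ s ^ 5 := Nat.one_le_pow _ _ hs1
    omega
  have bK : K ≤ 400000 * s ^ 9 := by
    have h1 : K ≤ 10 ^ 5 * (4 * s) * (s ^ 2) ^ 4 := by
      rw [hK]; gcongr
    refine h1.trans (le_of_eq ?_)
    ring
  have hM0 : 1 ≤ M := by
    rw [hM]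
    exact Nat.mul_pos (by norm_num) (Nat.pow_pos hs1)
  have c1 : 1000 * (N + 1) * (C + 1) ≤ M := by
    calc 1000 * (N + 1) * (C + 1) ≤ 1000 * (41 * s ^ 2) * (41 * s ^ 5) := by gcongr
      _ = 1681000 * s ^ 7 := by ring
      _ ≤ 10 ^ 12 * s ^ 18 := I_mono hs1 (by norm_num) (by norm_num)
      _ = M := hM.symm
  have c2 : 3 * K + 8 * (N * (C + 1)) ≤ M := by
    calc 3 * K + 8 * (N * (C + 1)) ≤ 3 * (400000 * s ^ 9) + 8 * ((41 * s ^ 2) * (41 * s ^ 5)) := by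
          gcongr; omega
      _ = 1200000 * s ^ 9 + 13448 * s ^ 7 := by ring
      _ ≤ 1200000 * s ^ 18 + 13448 * s ^ 18 :=
          Nat.add_le_add (I_mono hs1 le_rfl (by norm_num)) (I_mono hs1 le_rfl (by norm_num))
      _ = 1213448 * s ^ 18 := by ring
      _ ≤ 10 ^ 12 * s ^ 18 := I_mono hs1 (by norm_num) le_rfl
      _ = M := hM.symm
  have c3 : 8 * n * (N * (C + 1)) ^ 2 + (C + 1) ≤ M := by
    calc 8 * n * (N * (C + 1)) ^ 2 + (C + 1)
        ≤ 8 * (1600 * s ^ 4) * ((41 * s ^ 2) * (41 * s ^ 5)) ^ 2 + 41 * s ^ 5 := by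
          gcongr; omega
      _ = 36169740800 * s ^ 18 + 41 * s ^ 5 := by ring
      _ ≤ 36169740800 * s ^ 18 + 41 * s ^ 18 :=
          Nat.add_le_add le_rfl (I_mono hs1 le_rfl (by norm_num))
      _ = 36169740841 * s ^ 18 := by ring
      _ ≤ 10 ^ 12 * s ^ 18 := I_mono hs1 (by norm_num) le_rfl
      _ = M := hM.symm
  have bL : L + 1 ≤ 330000 * s ^ 4 * M := by
    have h1 : t + 1 ≤ s ^ 4 * M := by
      calc t + 1 ≤ s := by omega
        _ = s ^ 1 := (pow_one s).symm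
        _ ≤ s ^ 4 := Nat.pow_le_pow_right hs1 (by norm_num)
        _ = s ^ 4 * 1 := (mul_one _).symm
        _ ≤ s ^ 4 * M := Nat.mul_le_mul_left _ hM0
    have h2 : 2 * n * M ≤ 3200 * (s ^ 4 * M) := by
      calc 2 * n * M ≤ 2 * (1600 * s ^ 4) * M := by gcongr
        _ = 3200 * (s ^ 4 * M) := by ring
    have h3 : 330000 * s ^ 4 * M = 330000 * (s ^ 4 * M) := by ring
    rw [h3, hL]
    omega
  have c4 : 1000 * (L + 1) * (N + 1) * (C + 1) ≤ M ^ 2 := by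
    calc 1000 * (L + 1) * (N + 1) * (C + 1)
        ≤ 1000 * (330000 * s ^ 4 * M) * (41 * s ^ 2) * (41 * s ^ 5) := by gcongr
      _ = 554730000000 * s ^ 11 * M := by ring
      _ ≤ (10 ^ 12 * s ^ 18) * M :=
          Nat.mul_le_mul_right _ (I_mono hs1 (by norm_num) (by norm_num))
      _ = M ^ 2 := by rw [← hM]; ring
  have c5 : 8 * n * M ≤ R := by
    calc 8 * n * M ≤ 8 * (1600 * s ^ 4) * (10 ^ 12 * s ^ 18) := by rw [← hM]; gcongr
      _ = 12800000000000000 * s ^ 22 := by ring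
      _ ≤ 10 ^ 60 * s ^ 60 := I_mono hs1 (by norm_num) (by norm_num)
      _ ≤ R := hR
  have c6 : (L + 1) * (N * (M + (C + 1))) + t ≤ R := by
    have h1 : C + 1 ≤ M := by
      have : 8 * n * (N * (C + 1)) ^ 2 ≥ 0 := Nat.zero_le _
      omega
    calc (L + 1) * (N * (M + (C + 1))) + t
        ≤ (330000 * s ^ 4 * M) * ((41 * s ^ 2) * (M + M)) + s ^ 60 := by
          gcongr
          · omega
          · calc t ≤ s := by omega
              _ = s ^ 1 := (pow_one s).symm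
              _ ≤ s ^ 60 := Nat.pow_le_pow_right hs1 (by norm_num)
      _ = 27060000 * s ^ 6 * (M * M) + 1 * s ^ 60 := by ring
      _ = 27060000 * s ^ 6 * ((10 ^ 12 * s ^ 18) * (10 ^ 12 * s ^ 18)) + 1 * s ^ 60 := by
          rw [← hM]
      _ = (27060000 * 10 ^ 24) * s ^ 42 + 1 * s ^ 60 := by ring
      _ ≤ (27060000 * 10 ^ 24) * s ^ 60 + 1 * s ^ 60 :=
          Nat.add_le_add (I_mono hs1 le_rfl (by norm_num)) le_rfl
      _ = (27060000 * 10 ^ 24 + 1) * s ^ 60 := by ring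
      _ ≤ 10 ^ 60 * s ^ 60 := I_mono hs1 (by norm_num) le_rfl
      _ ≤ R := hR
  have c7 : t < L := by rw [hL]; omega
  have c8 : m + C + 2 ≤ M := by
    calc m + C + 2 ≤ s ^ 5 + 41 * s ^ 5 := by
          have : m + 1 ≤ s ^ 5 := by
            calc m + 1 ≤ s := by omega
              _ = s ^ 1 := (pow_one s).symm
              _ ≤ s ^ 5 := Nat.pow_le_pow_right hs1 (by norm_num)
          omega
      _ = 42 * s ^ 5 := by ring
      _ ≤ 10 ^ 12 * s ^ 18 := I_mono hs1 (by norm_num) (by norm_num)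
      _ = M := hM.symm
  exact ⟨c1, c2, c3, c4, c5, c6, c7, c8⟩

/-- the gap -/
theorem I_gap {Z L R t l : ℝ} (hZ : 1 ≤ Z) (ht : 0 ≤ t) (hl : 0 ≤ l) (hL : 100 * (Z + t + 1) ≤ L)
    (hR : 4 * Z ≤ R) :
    (1 + 1 / R) * ((L + 1) * (Z - (l + 1) + 1 / 4) + 2 * t) ≤ L * (Z - l) := by
  have hR0 : 0 < R := by linarith
  have hL0 : 0 < L := by linarith
  set B := (L + 1) * (Z - (l + 1) + 1 / 4) + 2 * t with hB
  have h1 : B + L / 2 ≤ L * (Z - l) := by
    rw [hB]; nlinarith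
  have h2 : B ≤ 2 * L * Z := by
    rw [hB]; nlinarith [mul_nonneg hL0.le hl]
  have h3 : B / R ≤ L / 2 := by
    rw [div_le_iff₀ hR0]
    have : L / 2 * (4 * Z) ≤ L / 2 * R := mul_le_mul_of_nonneg_left hR (by linarith)
    linarith
  have h4 : (1 + 1 / R) * B = B + B / R := by ring
  rw [h4]; linarith

/-- module I -/
theorem I (hW : Pool.Agent.Helper38.MR.specW) (hQ : Pool.Agent.Helper38.MR.specQ)
    (hG : Pool.Agent.Helper38.MR.specG) : Pool.Agent.Helper38.MR.specI := by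
  obtain ⟨c, hc⟩ : ∃ c : ℕ, 10 ^ 60 ≤ c := ⟨_, le_rfl⟩
  refine ⟨c, fun m t hm => ?_⟩
  obtain ⟨ε, lin, quad, v₀, hlin, hquad, hpos, hneg⟩ := hQ m hm
  have hnb1 : 1 ≤ nb m := by unfold nb; omega
  obtain ⟨h, v, m₀, hh, hv, hcost⟩ := hW (nb m) (4 * m) lin quad hnb1
    (fun k => (hlin k).trans (by push_cast; exact le_rfl))
    (fun k l => (hquad k l).trans (by push_cast; exact le_rfl))
  -- the numbers
  obtain ⟨n, hn⟩ : ∃ n, n = (Vset (2 * nb m + 2)).card := ⟨_, rfl⟩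
  obtain ⟨N, hN⟩ : ∃ N, N = 10 * (2 * nb m + 4) := ⟨_, rfl⟩
  obtain ⟨C, hC⟩ : ∃ C, C = 10 * (4 * m + 1) * (nb m + 1) ^ 2 := ⟨_, rfl⟩
  obtain ⟨K, hK⟩ : ∃ K, K = 10 ^ 5 * (4 * m + 1) * (nb m + 1) ^ 4 := ⟨_, rfl⟩
  obtain ⟨M, hM⟩ : ∃ M, M = 10 ^ 12 * (m + t + 1) ^ 18 := ⟨_, rfl⟩
  obtain ⟨L, hL⟩ : ∃ L, L = 100 * (2 * n * M + t + 1) := ⟨_, rfl⟩
  obtain ⟨R, hRdef⟩ : ∃ R, R = c * (m + t + 1) ^ c := ⟨_, rfl⟩
  have hRR : (c * (m + t + 1 : ℝ) ^ c) = (R : ℝ) := by rw [hRdef]; push_cast; rfl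
  have hR60 : 10 ^ 60 * (m + t + 1) ^ 60 ≤ R := by
    rw [hRdef]
    refine Nat.mul_le_mul hc (Nat.pow_le_pow_right (by omega) (le_trans ?_ hc))
    norm_num
  have hnums : Nums m t n N C K M L R :=
    { hC0 := by rw [hC]; exact Nat.mul_pos (by omega) (by positivity)
      hN := hN
      hn := by
        rw [hn, hN]
        have h1 := I_card_le (2 * nb m + 2)
        have h2 : 10 * (2 * nb m + 2 + 2) = 10 * (2 * nb m + 4) := by omega
        rwa [h2] at h1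
      hC := hC
      hK := hK
      hM := hM
      hL := hL
      hR := hR60 }
  obtain ⟨c1, c2, c3, c4, c5, c6, c7, c8⟩ := I_nums hm hnums
  have hn2 : 2 ≤ n := hn ▸ I_card_ge _
  have hnR : ((Vset (2 * nb m + 2)).card : ℝ) = n := by rw [hn]
  have hh' : ∀ x y, |h x y| ≤ (C : ℤ) := fun x y => (hh x y).trans (by
    rw [hC]; push_cast; exact le_rfl)
  have hv' : ∀ x y, |v x y| ≤ (C : ℤ) := fun x y => (hv x y).trans (by
    rw [hC]; push_cast; exact le_rfl)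
  have hKle : (10 ^ 5 * (((4 * m : ℕ) : ℤ) + 1) * ((nb m : ℤ) + 1) ^ 4) ≤ (K : ℤ) := by
    rw [hK]; push_cast; exact le_rfl
  have hLR : (L : ℝ) = 100 * (2 * n * M + t + 1) := by rw [hL]; push_cast; ring
  have d1 : ((C + 1 : ℕ) : ℤ) < M := by exact_mod_cast (by omega : C + 1 < M)
  have d2 : 8 * ((N * (C + 1) : ℕ) : ℤ) ≤ M := by exact_mod_cast (by omega : 8 * (N * (C + 1)) ≤ M)
  have d3 : 3 * (K : ℤ) + 8 * ((N * (C + 1) : ℕ) : ℤ) ≤ M := by exact_mod_cast c2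
  have d4 : C + 1 ≤ M := by omega
  have d5 : (8 * n * (N * (C + 1)) ^ 2 + (C + 1) : ℝ) ≤ M := by exact_mod_cast c3
  have d6 : (8 * n * M : ℝ) ≤ R := by exact_mod_cast c5
  clear hnums hR60 hh hv hC hK hM hL hlin hquad hc
  -- the points
  have hPNy : ∀ i, (PN (2 * nb m + 2) i).2 ≤ 10 * (2 * nb m + 3) + 2 := fun i =>
    I_y_le (by omega) (mem_Vset.mp (PN_mem _ i))
  have hPNx : ∀ i, (PN (2 * nb m + 2) i).1 ≤ N := fun i => by
    have := (pres_lt (mem_Vset.mp (PN_mem (2 * nb m + 2) i))).1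
    omega
  have hPNN : ∀ i, (PN (2 * nb m + 2) i).1 ≤ N ∧ (PN (2 * nb m + 2) i).2 ≤ N := fun i =>
    ⟨hPNx i, (hPNy i).trans (by omega)⟩
  obtain ⟨i₀, hi₀⟩ := PN_surj (2 * nb m + 2) (mem_Vset.mpr (I_pres_11 _) :
    ((1, 1) : ℕ × ℕ) ∈ Vset (2 * nb m + 2))
  have hbox : ∀ x : Graph m, Box h (addTop v (topOf ε x)) N (C + 1) := fun x =>
    ⟨fun a b => (hh' a b).trans (by push_cast; linarith),
      fun a b => I_addTop_abs v _ (I_topOf ε x) C hv' a b⟩
  -- the value `Z`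
  have hm0v0 : |m₀ + v₀| ≤ (n : ℤ) * ((C + 1 : ℕ) : ℤ) := by
    obtain ⟨β, hβ⟩ := hpos (fun _ => false) ∅ (by
      intro e
      simp [clq])
    obtain ⟨σ, hσ1, hσ2⟩ := (hcost (topOf ε fun _ => false) (I_topOf ε _) K hKle).1 β
    rw [hβ] at hσ2
    have h1 := I_tcost_abs (hbox fun _ => false) K _ σ hσ1
    rw [hσ2] at h1
    simp only [Finset.card_empty, Nat.cast_zero, sub_zero] at h1
    rw [hn]
    exact h1
  obtain ⟨Z, hZ⟩ : ∃ Z : ℝ, Z = (n : ℝ) * M + ((m₀ + v₀ : ℤ) : ℝ) := ⟨_, rfl⟩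
  have hm0v0' : |((m₀ + v₀ : ℤ) : ℝ)| ≤ (n : ℝ) * (C + 1) := by
    have : ((|m₀ + v₀| : ℤ) : ℝ) ≤ ((n * (C + 1 : ℕ) : ℤ) : ℝ) := by exact_mod_cast hm0v0
    push_cast at this
    push_cast
    exact this
  have c8' : (m : ℝ) + C + 2 ≤ M := by exact_mod_cast c8
  have hn2' : (2 : ℝ) ≤ n := by exact_mod_cast hn2
  have hZlow : (m : ℝ) + 1 ≤ Z := by
    have h1 := (abs_le.mp hm0v0').1
    have h2 : (n : ℝ) * (C + 1) + 2 * (m + 1) ≤ n * M := by
      have h3 : (n : ℝ) * (m + 1) ≤ n * (M - (C + 1)) :=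
        mul_le_mul_of_nonneg_left (by linarith) (by linarith)
      have h4 : (2 : ℝ) * (m + 1) ≤ n * (m + 1) :=
        mul_le_mul_of_nonneg_right hn2' (by positivity)
      linarith
    have h5 : (0 : ℝ) ≤ m := by positivity
    rw [hZ]; linarith
  have hZup : Z ≤ 2 * n * M := by
    have h1 := (abs_le.mp hm0v0').2
    have h2 : (n : ℝ) * (C + 1) ≤ n * M := by
      refine mul_le_mul_of_nonneg_left ?_ (by linarith)
      have h5 : (0 : ℝ) ≤ m := by positivity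
      linarith
    rw [hZ]; linarith
  have hm2 : (2 : ℝ) ≤ m := by exact_mod_cast hm
  have hLZ : 100 * (Z + t + 1) ≤ (L : ℝ) := by rw [hLR]; linarith
  have hRZ : 4 * Z ≤ (R : ℝ) := by linarith
  -- lengths
  have hlow : ∀ (x : Graph m) (l : ℕ) (χ : Fin m → Fin l), x ≤ mpt χ → ∀ σ,
      Z - l ≤ tlen (fun i => pert h (addTop v (topOf ε x)) M (PN (2 * nb m + 2) i)) σ := by
    intro x l χ hx σ
    obtain ⟨β, hβ⟩ := (hcost (topOf ε x) (I_topOf ε x) K hKle).2 σ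
    have h1 := hneg x l χ hx β
    have h2 := tcost_le_tlen (K := K) (M := M) (hbox x) (hn ▸ hn2) (PN (2 * nb m + 2))
      (PN_inj _) hPNN (Int.natCast_nonneg _) d3 σ
    have h3 : m₀ + v₀ - (l : ℤ) ≤ tcost h (addTop v (topOf ε x)) K (PN (2 * nb m + 2)) σ := by
      linarith
    have h4 : ((m₀ + v₀ : ℤ) : ℝ) - (l : ℝ) ≤
        (tcost h (addTop v (topOf ε x)) K (PN (2 * nb m + 2)) σ : ℝ) := by
      exact_mod_cast h3
    rw [hnR] at h2
    rw [hZ]
    rw [Int.cast_natCast] at h2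
    linarith only [h2, h4]
  have hup : ∀ (x : Graph m) (A : Finset (Fin m)), clq A ≤ x → ∃ σ,
      tlen (fun i => pert h (addTop v (topOf ε x)) M (PN (2 * nb m + 2) i)) σ ≤
        Z - A.card + 1 / 4 := by
    intro x A hA
    obtain ⟨β, hβ⟩ := hpos x A hA
    obtain ⟨σ, hσ1, hσ2⟩ := (hcost (topOf ε x) (I_topOf ε x) K hKle).1 β
    refine ⟨σ, ?_⟩
    have h1 := tlen_le_tcost (K := K) (M := M) (hbox x) (PN (2 * nb m + 2)) hPNN d1 σ hσ1
    rw [hσ2, hβ, hnR] at h1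
    have hMC : (0 : ℝ) < (M : ℝ) - (C + 1) := by linarith only [c8', hm2]
    have h2 : (n : ℝ) * ((2 * (N * (C + 1))) ^ 2 / (2 * ((M : ℝ) - (C + 1)))) ≤ 1 / 4 := by
      rw [← mul_div_assoc, div_le_iff₀ (by linarith only [hMC])]
      have e1 : (n : ℝ) * (2 * (N * (C + 1))) ^ 2 = (8 * n * (N * (C + 1)) ^ 2) / 2 := by ring
      rw [e1]
      linarith only [d5]
    rw [hZ]
    push_cast at h1 ⊢
    linarith only [h1, h2]
  -- conclusion
  refine ⟨fun l => ((L : ℝ) + 1) * (Z - ((l : ℝ) + 1) + 1 / 4) + 2 * t, fun l hl1 hlm => ⟨?_, ?_⟩⟩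
  · have hl : (l : ℝ) + 1 ≤ m := by exact_mod_cast hlm
    have h1 : 0 < Z - ((l : ℝ) + 1) + 1 / 4 := by linarith
    have h2 : (0 : ℝ) < (L : ℝ) + 1 := by positivity
    have h3 : (0 : ℝ) ≤ 2 * (t : ℝ) := by positivity
    have := mul_pos h2 h1
    linarith
  · obtain ⟨D, hD1, hD2⟩ := hG _ t m N C M L (PN (2 * nb m + 2)) i₀ ε h v (PN_inj _)
      (fun i => ⟨hPNx i, hPNy i⟩) (by omega) (by rw [hi₀]; omega) hh' hv' c7.le c1 c4
    have hinj : ∀ x : Graph m, Function.Injective fun i =>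
        pert h (addTop v (topOf ε x)) M (PN (2 * nb m + 2) i) := fun x =>
      pert_injective (hbox x) _ (PN_inj _) hPNN d1 d2
    have hbd : ∀ (x : Graph m) (i : Fin _),
        0 ≤ (pert h (addTop v (topOf ε x)) M (PN (2 * nb m + 2) i)).1 ∧
        (pert h (addTop v (topOf ε x)) M (PN (2 * nb m + 2) i)).1 ≤ ((N * (M + (C + 1)) : ℕ) : ℤ) ∧
        0 ≤ (pert h (addTop v (topOf ε x)) M (PN (2 * nb m + 2) i)).2 ∧
        (pert h (addTop v (topOf ε x)) M (PN (2 * nb m + 2) i)).2 ≤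
          ((N * (M + (C + 1)) : ℕ) : ℤ) := by
      intro x i
      have := I_pert_bd (hbox x) d4 (hPNN i)
      push_cast at this ⊢
      exact this
    refine ⟨D, fun x => padded (L + 1) t i₀ fun i =>
      pert h (addTop v (topOf ε x)) M (PN (2 * nb m + 2) i), fun x => padded L t i₀ fun i =>
      pert h (addTop v (topOf ε x)) M (PN (2 * nb m + 2) i), hD1, ?_, ?_, ?_, ?_, ?_⟩
    · intro x
      rw [← hRdef]
      exact I_placement (L + 1) t i₀ _ (N * (M + (C + 1))) R (hinj x) (by omega) (hbd x) c6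
    · intro x
      rw [← hRdef]
      refine I_placement L t i₀ _ (N * (M + (C + 1))) R (hinj x) c7 (hbd x) (le_trans ?_ c6)
      gcongr
      omega
    · intro x e
      exact hD2 e x
    · intro x A hA hAx
      obtain ⟨σ, hσ⟩ := hup x A hAx
      obtain ⟨σ', hσ'⟩ := exists_insert (L + 1) t i₀ σ
      refine ⟨σ', ?_⟩
      have h1 := (hσ' fun i => pert h (addTop v (topOf ε x)) M (PN (2 * nb m + 2) i)).2
      rw [hA] at hσ
      have h2 : ((L + 1 : ℕ) : ℝ) * tlen (fun i => pert h (addTop v (topOf ε x)) M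
          (PN (2 * nb m + 2) i)) σ ≤ ((L : ℝ) + 1) * (Z - ((l : ℝ) + 1) + 1 / 4) := by
        push_cast at hσ ⊢
        exact mul_le_mul_of_nonneg_left hσ (by positivity)
      exact h1.trans (add_le_add h2 le_rfl)
    · intro x χ hx σ
      obtain ⟨σ', hσ'⟩ := exists_remove L t i₀ (fun i =>
        pert h (addTop v (topOf ε x)) M (PN (2 * nb m + 2) i)) σ
      have h1 := hlow x l χ hx σ'
      have h2 : (L : ℝ) * (Z - l) ≤ (L : ℝ) * tlen (fun i => pert h (addTop v (topOf ε x)) M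
          (PN (2 * nb m + 2) i)) σ' := mul_le_mul_of_nonneg_left h1 (by positivity)
      have h3 : (1 + 1 / (R : ℝ)) * (((L : ℝ) + 1) * (Z - ((l : ℝ) + 1) + 1 / 4) + 2 * t)
          ≤ L * (Z - l) := I_gap (by linarith) (by positivity) (by positivity) hLZ hRZ
      have h4 := (h3.trans h2).trans hσ'
      rw [← hRR] at h4
      exact h4

end Pool.Agent.Helper28.MR
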