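import Pool.Agent.Helper28.MR.Grid

/-! MP_c9c10f_co: from the grid to the plane. -/

set_option autoImplicit false

namespace Pool.Agent.Helper28.MR

/-- the four vertices of a rectangle in coordinates: vertex `(x,y)`, direction `(a,b)`, sides `m,n` -/
def Mono (c : ℝ → ℝ → Bool) (x y a b m n : ℝ) : Prop :=
  c (x + m * a) (y + m * b) = c x y ∧ c (x - n * b) (y + n * a) = c x y ∧
    c (x + m * a - n * b) (y + m * b + n * a) = c x y

theorem six (c : ℝ → ℝ → Bool)
    (hc : ∀ x y a b : ℝ, a ^ 2 + b ^ 2 = 1 → ∀ m n : ℕ, (m = 1 ∨ m = 2) → 1 ≤ n → n ≤ 4 →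
      ¬ Mono c x y a b m n) (x y a b : ℝ) (hab : a ^ 2 + b ^ 2 = 1) :
    c (x + 6 * a) (y + 6 * b) = c x y := by
  have key := grid (fun i j : ℤ => c (x + i * a - j * b) (y + i * b + j * a)) ?_
  · simp only [Int.cast_zero, zero_mul, add_zero, sub_zero] at key
    rw [key]
    norm_num
  · intro i j k l hkl
    by_contra hne
    -- the four vertices have the same colour
    have h4 : c (x + ((i + k : ℤ) : ℝ) * a - j * b) (y + ((i + k : ℤ) : ℝ) * b + j * a) =
          c (x + i * a - j * b) (y + i * b + j * a) ∧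
        c (x + i * a - ((j + l : ℤ) : ℝ) * b) (y + i * b + ((j + l : ℤ) : ℝ) * a) =
          c (x + i * a - j * b) (y + i * b + j * a) ∧
        c (x + ((i + k : ℤ) : ℝ) * a - ((j + l : ℤ) : ℝ) * b)
          (y + ((i + k : ℤ) : ℝ) * b + ((j + l : ℤ) : ℝ) * a) =
          c (x + i * a - j * b) (y + i * b + j * a) := by
      simp only [nae, Bool.not_eq_true', Bool.not_eq_false, Bool.and_eq_true, beq_iff_eq] at hne
      exact ⟨hne.1.1.symm, hne.1.2.symm, hne.2.symm⟩
    obtain ⟨e1, e2, e3⟩ := h4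
    push_cast at e1 e2 e3
    rcases hkl with ⟨hk, hl1, hl4⟩ | ⟨hl, hk1, hk4⟩
    · -- side k in {1,2} along (a,b), side l
      lift k to ℕ using by rcases hk with h | h <;> omega
      lift l to ℕ using by omega
      apply hc (x + i * a - j * b) (y + i * b + j * a) a b hab k l (by omega) (by omega) (by omega)
      refine ⟨?_, ?_, ?_⟩
      · rw [← e1]; congr 1 <;> push_cast <;> ring
      · rw [← e2]; congr 1 <;> push_cast <;> ring
      · rw [← e3]; congr 1 <;> push_cast <;> ring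
    · -- side l in {1,2} along (-b,a), side k : start at the vertex with the direction (b,-a)
      lift k to ℕ using by omega
      lift l to ℕ using by rcases hl with h | h <;> omega
      -- the rectangle seen from the vertex j+l: direction (b,-a), sides l, k
      apply hc (x + i * a - (j + l) * b) (y + i * b + (j + l) * a) b (-a)
        (by rw [neg_sq]; linarith) l k (by omega) (by omega) (by omega)
      refine ⟨?_, ?_, ?_⟩
      · rw [show x + (i : ℝ) * a - (j + l) * b + (l : ℝ) * b = x + i * a - j * b by ring,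
          show y + (i : ℝ) * b + (j + l) * a + (l : ℝ) * -a = y + i * b + j * a by ring]
        simpa using e2.symm
      · rw [show x + (i : ℝ) * a - (j + l) * b - (k : ℝ) * -a = x + (i + k) * a - (j + l) * b by ring,
          show y + (i : ℝ) * b + (j + l) * a + (k : ℝ) * b = y + (i + k) * b + (j + l) * a by ring]
        simpa using e3.trans e2.symm
      · rw [show x + (i : ℝ) * a - (j + l) * b + (l : ℝ) * b - (k : ℝ) * -a =
            x + (i + k) * a - j * b by ring,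
          show y + (i : ℝ) * b + (j + l) * a + (l : ℝ) * -a + (k : ℝ) * b =
            y + (i + k) * b + j * a by ring]
        simpa using e1.trans e2.symm

theorem coord (c : ℝ → ℝ → Bool) : ∃ x y a b : ℝ, a ^ 2 + b ^ 2 = 1 ∧ ∃ m n : ℕ,
    (m = 1 ∨ m = 2) ∧ 1 ≤ n ∧ n ≤ 4 ∧ Mono c x y a b m n := by
  by_contra h
  push Not at h
  have hc : ∀ x y a b : ℝ, a ^ 2 + b ^ 2 = 1 → ∀ m n : ℕ, (m = 1 ∨ m = 2) → 1 ≤ n → n ≤ 4 →
      ¬ Mono c x y a b m n := h
  have h6 := six c hc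
  -- points at distance 1 have the same colour
  have h1 : ∀ x y a b : ℝ, a ^ 2 + b ^ 2 = 1 → c (x + a) (y + b) = c x y := by
    intro x y a b hab
    obtain ⟨t, ht⟩ : ∃ t : ℝ, t ^ 2 = 143 / 4 := ⟨Real.sqrt (143 / 4), Real.sq_sqrt (by norm_num)⟩
    have e1 := h6 x y ((a / 2 - t * b) / 6) ((b / 2 + t * a) / 6) (by
      have : ((a / 2 - t * b) / 6) ^ 2 + ((b / 2 + t * a) / 6) ^ 2 =
        (1 / 4 + t ^ 2) * (a ^ 2 + b ^ 2) / 36 := by ring
      rw [this, ht, hab]; norm_num)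
    have e2 := h6 (x + a) (y + b) ((-a / 2 - t * b) / 6) ((-b / 2 + t * a) / 6) (by
      have : ((-a / 2 - t * b) / 6) ^ 2 + ((-b / 2 + t * a) / 6) ^ 2 =
        (1 / 4 + t ^ 2) * (a ^ 2 + b ^ 2) / 36 := by ring
      rw [this, ht, hab]; norm_num)
    rw [show x + 6 * ((a / 2 - t * b) / 6) = x + a / 2 - t * b by ring,
      show y + 6 * ((b / 2 + t * a) / 6) = y + b / 2 + t * a by ring] at e1
    rw [show x + a + 6 * ((-a / 2 - t * b) / 6) = x + a / 2 - t * b by ring,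
      show y + b + 6 * ((-b / 2 + t * a) / 6) = y + b / 2 + t * a by ring] at e2
    exact e2.symm.trans e1
  refine hc 0 0 1 0 (by norm_num) 1 1 (Or.inl rfl) le_rfl (by norm_num) ⟨?_, ?_, ?_⟩
  · have := h1 0 0 1 0 (by norm_num)
    simpa using this
  · have := h1 0 0 0 1 (by norm_num)
    simpa using this
  · have e1 := h1 0 0 1 0 (by norm_num)
    have e2 := h1 1 0 0 1 (by norm_num)
    simp at e1 e2 ⊢
    exact e2.trans e1

/-- Every 2-colouring of the plane contains a monochromatic `m × n` rectangle with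
`m ∈ {1,2}`, `n ≤ 4`. -/
theorem main (c : EuclideanSpace ℝ (Fin 2) → Fin 2) :
    ∃ m n : ℕ, (m = 1 ∨ m = 2) ∧ 1 ≤ n ∧ n ≤ 4 ∧
      ∃ p u v : EuclideanSpace ℝ (Fin 2), ‖u‖ = m ∧ ‖v‖ = n ∧ inner ℝ u v = 0 ∧
        c (p + u) = c p ∧ c (p + v) = c p ∧ c (p + u + v) = c p := by
  obtain ⟨x, y, a, b, hab, m, n, hm, hn1, hn4, h1, h2, h3⟩ :=
    coord (fun x y => decide (c (!₂[x, y]) = 0))
  have hinj : ∀ s t : Fin 2, decide (s = 0) = decide (t = 0) → s = t := by decide
  have h1' := hinj _ _ h1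
  have h2' := hinj _ _ h2
  have h3' := hinj _ _ h3
  refine ⟨m, n, hm, hn1, hn4, !₂[x, y], !₂[m * a, m * b], !₂[-(n * b), n * a], ?_, ?_, ?_, ?_, ?_, ?_⟩
  · rw [EuclideanSpace.norm_eq, Fin.sum_univ_two]
    have : ‖(!₂[(m : ℝ) * a, m * b] : EuclideanSpace ℝ (Fin 2)) 0‖ ^ 2 +
        ‖(!₂[(m : ℝ) * a, m * b] : EuclideanSpace ℝ (Fin 2)) 1‖ ^ 2 = (m : ℝ) ^ 2 := by
      simp only [Real.norm_eq_abs, sq_abs]
      show ((m : ℝ) * a) ^ 2 + (m * b) ^ 2 = _
      calc ((m : ℝ) * a) ^ 2 + (m * b) ^ 2 = (m : ℝ) ^ 2 * (a ^ 2 + b ^ 2) := by ring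
        _ = _ := by rw [hab, mul_one]
    rw [this, Real.sqrt_sq (Nat.cast_nonneg m)]
  · rw [EuclideanSpace.norm_eq, Fin.sum_univ_two]
    have : ‖(!₂[-((n : ℝ) * b), n * a] : EuclideanSpace ℝ (Fin 2)) 0‖ ^ 2 +
        ‖(!₂[-((n : ℝ) * b), n * a] : EuclideanSpace ℝ (Fin 2)) 1‖ ^ 2 = (n : ℝ) ^ 2 := by
      simp only [Real.norm_eq_abs, sq_abs]
      show (-((n : ℝ) * b)) ^ 2 + (n * a) ^ 2 = _
      calc (-((n : ℝ) * b)) ^ 2 + (n * a) ^ 2 = (n : ℝ) ^ 2 * (a ^ 2 + b ^ 2) := by ring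
        _ = _ := by rw [hab, mul_one]
    rw [this, Real.sqrt_sq (Nat.cast_nonneg n)]
  · rw [PiLp.inner_apply, Fin.sum_univ_two]
    show inner ℝ ((m : ℝ) * a) (-((n : ℝ) * b)) + inner ℝ ((m : ℝ) * b) ((n : ℝ) * a) = 0
    simp only [RCLike.inner_apply, conj_trivial]
    ring
  · rw [← h1']
    congr 1
    ext i
    fin_cases i <;> simp
  · rw [← h2']
    congr 1
    ext i
    fin_cases i <;> simp [sub_eq_add_neg]
  · rw [← h3']
    congr 1
    ext i
    fin_cases i <;> simp [sub_eq_add_neg]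

end Pool.Agent.Helper28.MR
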